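import Mathlib
import Pool.Agent.Lib.MP_44a246_ntL.LMason

/-!
The number of places over a finite set of places.
-/

namespace Pool.Agent.Lib.MP_44a246_ntP

open Pool.Agent.Lib.MP_44a246_nt
open Pool.Agent.Lib.MP_44a246_ntL
open Pool.Agent.Lib.MP_e52354_nt
open WithZero Module

/-- **The number of places over a finite set of places.** -/
theorem ncard_over_le {κ K L : Type*} [Field κ] [IsAlgClosed κ] [CharZero κ] [Field K]
    [CharZero K] [Algebra κ K] [Field L] [Algebra K L] [FiniteDimensional K L] [Algebra κ L]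
    [IsScalarTower κ K L] (hL : IsFF κ L) {S : Set (Place κ K)} (hS : S.Finite) :
    {w : Place κ L | below K w ∈ S}.Finite ∧
      {w : Place κ L | below K w ∈ S}.ncard ≤ S.ncard * finrank K L := by
  classical
  have hsupp : (Function.support fun v : Place κ K => if v ∈ S then 1 else 0).Finite := by
    refine hS.subset fun v hv => ?_
    by_contra h
    exact hv (if_neg h)
  obtain ⟨hfin, hsum⟩ := mason_sum_over (L := L) hL hsupp
  have hT : {w : Place κ L | below K w ∈ S} ⊆ Function.support fun w : Place κ L =>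
      ((ramIdx K w.1 * (if below K w ∈ S then 1 else 0) : ℕ) : ℤ) := by
    intro w hw
    have h1 := one_le_ramIdx (K := K) w.1 w.2.1
    have hw' : below K w ∈ S := hw
    show ((ramIdx K w.1 * (if below K w ∈ S then 1 else 0) : ℕ) : ℤ) ≠ 0
    simp only [if_pos hw', mul_one]
    exact_mod_cast (by omega : ramIdx K w.1 ≠ 0)
  have hTf := hfin.subset hT
  refine ⟨hTf, ?_⟩
  have h1 : ∑ᶠ v : Place κ K, (if v ∈ S then 1 else 0) = S.ncard := by
    have hsub : (Function.support fun v : Place κ K => if v ∈ S then 1 else 0) ⊆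
        ↑hS.toFinset := by
      intro v hv
      rw [Set.Finite.coe_toFinset]
      by_contra h
      exact hv (if_neg h)
    rw [finsum_eq_sum_of_support_subset _ hsub, Set.ncard_eq_toFinset_card _ hS,
      Finset.card_eq_sum_ones]
    exact Finset.sum_congr rfl fun v hv => if_pos ((Set.Finite.mem_toFinset _).mp hv)
  rw [h1] at hsum
  have h2 : (({w : Place κ L | below K w ∈ S}.ncard : ℕ) : ℤ) ≤
      ∑ᶠ w : Place κ L, ((ramIdx K w.1 * (if below K w ∈ S then 1 else 0) : ℕ) : ℤ) := by
    rw [finsum_eq_sum_of_support_subset (s := hfin.toFinset) _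
      (by rw [Set.Finite.coe_toFinset]), Set.ncard_eq_toFinset_card _ hTf,
      Finset.card_eq_sum_ones, Nat.cast_sum]
    refine (Finset.sum_le_sum fun w hw => ?_).trans
      (Finset.sum_le_sum_of_subset_of_nonneg (fun w hw => ?_) fun w _ _ => Nat.cast_nonneg _)
    · have hw' : below K w ∈ S := (Set.Finite.mem_toFinset hTf).mp hw
      simp only [if_pos hw', mul_one]
      exact_mod_cast one_le_ramIdx (K := K) w.1 w.2.1
    · exact (Set.Finite.mem_toFinset _).mpr (hT ((Set.Finite.mem_toFinset _).mp hw))
  rw [hsum] at h2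
  exact_mod_cast h2

end Pool.Agent.Lib.MP_44a246_ntP
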