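import Mathlib
import Pool.Agent.Lib.MP_44a246_ntS.SE1
import Pool.Agent.Lib.MP_44a246_ntS.SJ2b
import Pool.Agent.Lib.MP_44a246_ntS.SJ3b
import Pool.Agent.Lib.MP_44a246_ntS.SJ5
import Pool.Agent.Lib.MP_44a246_ntS.SJ5b

/-!
An irreducible form of small height which vanishes at a given point.
-/

namespace Pool.Agent.Lib.MP_44a246_ntP

open Pool.Agent.Lib.MP_44a246_nt
open Pool.Agent.Lib.MP_44a246_ntL
open Pool.Agent.Lib.MP_44a246_ntS
open Pool.Agent.Lib.MP_e52354_nt
open WithZero Module MvPolynomial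

private lemma p01_irr {L : Type*} [Field L] {p : Fin 3 → L} {P : MvPolynomial (Fin 3) L}
    (hP : P ≠ 0) (h : eval p P = 0) : ∃ A, Irreducible A ∧ A ∣ P ∧ eval p A = 0 := by
  induction P using WfDvdMonoid.induction_on_irreducible with
  | zero => exact absurd rfl hP
  | unit u hu =>
    exfalso
    have h1 : IsUnit (eval p u) := hu.map _
    rw [h] at h1
    exact not_isUnit_zero h1
  | mul a i ha hi ih =>
    rw [map_mul, mul_eq_zero] at h
    rcases h with h | h
    · exact ⟨i, hi, dvd_mul_right i a, h⟩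
    · obtain ⟨A, hA1, hA2, hA3⟩ := ih ha h
      exact ⟨A, hA1, hA2.trans (dvd_mul_left a i), hA3⟩

variable {κ L : Type*} [Field κ] [IsAlgClosed κ] [CharZero κ] [Field L] [Algebra κ L]

/-- A form which vanishes at a point has an irreducible factor which is a form and which vanishes at
the point, and whose height is not larger. -/
theorem exists_irr_form (h : IsFF κ L) {p : Fin 3 → L} {m : ℕ} {P₀ : MvPolynomial (Fin 3) L}
    (hP₀ : P₀.IsHomogeneous m) (h0 : P₀ ≠ 0) (hp : eval p P₀ = 0) :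
    ∃ (a : ℕ) (P : MvPolynomial (Fin 3) L), 1 ≤ a ∧ a ≤ m ∧ P.IsHomogeneous a ∧ Irreducible P ∧
      eval p P = 0 ∧ polyHeight κ P ≤ polyHeight κ P₀ := by
  -- `P₀` is a product of irreducible factors and a unit, one of the factors `P` vanishes at `p`.
  obtain ⟨P, hPi, hPd, hPp⟩ := p01_irr h0 hp
  obtain ⟨Q, rfl⟩ := hPd
  obtain ⟨a, e, hae, hPa, -⟩ := hom_of_mul hP₀ h0
  refine ⟨a, P, ?_, by omega, hPa, hPi, hPp, ?_⟩
  · rw [Nat.one_le_iff_ne_zero]
    rintro rfl
    have h1 := hPa.totalDegree hPi.ne_zero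
    rw [totalDegree_eq_zero_iff_eq_C] at h1
    rw [h1, eval_C] at hPp
    rw [hPp, C_0] at h1
    exact hPi.ne_zero h1
  · have h1 := gh_le_of_dvd h (map_dvd (MvPolynomial.aeval (R := L)
      (![1, Polynomial.C Polynomial.X, Polynomial.X] : Fin 3 → Polynomial (Polynomial L)))
      (dvd_mul_right P Q)) (deh_ne_zero hP₀ h0)
    change gh κ (deh P) ≤ gh κ (deh (P * Q)) at h1
    rwa [gh_deh hPa, gh_deh hP₀] at h1

end Pool.Agent.Lib.MP_44a246_ntP
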