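import Mathlib
import Pool.Agent.Lib.MP_44a246_ntS.SE1
import Pool.Agent.Lib.MP_44a246_ntS.SF3c

/-!
Two forms without common factor which kill the same space.
-/

namespace Pool.Agent.Lib.MP_44a246_ntP

open Pool.Agent.Lib.MP_44a246_nt
open Pool.Agent.Lib.MP_44a246_ntL
open Pool.Agent.Lib.MP_44a246_ntS
open Pool.Agent.Lib.MP_e52354_nt
open WithZero Module MvPolynomial

variable {κ L : Type*} [Field κ] [IsAlgClosed κ] [CharZero κ] [Field L] [CharZero L] [Algebra κ L]

/-- If the dimension of `Q` is small then some form `f` of degree `s` which is zero on `Q` is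
relatively prime to `l ^ (s - a) * P`, for the irreducible form `P` of degree `a` and a suitable
linear form `l`. -/
theorem exists_pair (h : IsFF κ L) {s a : ℕ} (has : a ≤ s) {P : MvPolynomial (Fin 3) L}
    (hP : P.IsHomogeneous a) (hPi : Irreducible P) {Q : Submodule L (M3 s → L)}
    (hQ : Fintype.card (M3 (s - a)) + finrank L Q < Fintype.card (M3 s)) :
    ∃ f l : MvPolynomial (Fin 3) L, f ∈ Ann Q ∧ l.IsHomogeneous 1 ∧
      IsRelPrime f (l ^ (s - a) * P) := by
  -- By `height_gcd` (second part, `e = s - a`) some `f ∈ Ann Q` is not divisible by `P`; in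
  -- particular `f ≠ 0`, and `IsRelPrime f P` as `P` is irreducible. `L` is infinite, so there is
  -- `z : Fin 3 → L` with `eval z f ≠ 0` (`MvPolynomial.funext`). Let `l` be a nonzero linear form
  -- with `eval z l = 0`: `l = C (z 1) * X 0 - C (z 0) * X 1` if `(z 0, z 1) ≠ 0`, and `l = X 0`
  -- otherwise. `l` does not divide `f`, and `l` is irreducible (`hom_of_mul`: in `l = u v` one
  -- factor has degree `0`, so it is a nonzero constant). `IsRelPrime.mul_right`,
  -- `IsRelPrime.pow_right` or similar.
  classical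
  have h1 : ∃ f ∈ Ann Q, ¬ P ∣ f := by
    by_contra hcon
    push Not at hcon
    have := (height_gcd h (s := s) (a := a) (e := s - a) (by omega) hP hPi.ne_zero hcon).2
    omega
  obtain ⟨f, hf, hPf⟩ := h1
  have hf0 : f ≠ 0 := by
    rintro rfl
    exact hPf (dvd_zero P)
  haveI : Infinite L := inferInstance
  have h2 : ∃ z : Fin 3 → L, eval z f ≠ 0 := by
    by_contra hcon
    push Not at hcon
    exact hf0 (MvPolynomial.funext (fun x => by rw [hcon x, map_zero]))
  obtain ⟨z, hz⟩ := h2
  have h3 : ∃ l : MvPolynomial (Fin 3) L, l.IsHomogeneous 1 ∧ l ≠ 0 ∧ eval z l = 0 := by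
    by_cases h01 : z 0 = 0 ∧ z 1 = 0
    · exact ⟨X 0, isHomogeneous_X _ _, X_ne_zero 0, by simp [h01.1]⟩
    · refine ⟨C (z 1) * X 0 - C (z 0) * X 1, ?_, ?_, ?_⟩
      · exact (isHomogeneous_C_mul_X _ _).sub (isHomogeneous_C_mul_X _ _)
      · intro h0
        apply h01
        have c0 := congrArg (eval (Pi.single (0 : Fin 3) (1 : L))) h0
        have c1 := congrArg (eval (Pi.single (1 : Fin 3) (1 : L))) h0
        simp at c0 c1
        exact ⟨c1, c0⟩
      · simp only [map_sub, map_mul, eval_C, eval_X]
        ring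
  obtain ⟨l, hl1, hl0, hlz⟩ := h3
  have key : ∀ u : MvPolynomial (Fin 3) L, u.IsHomogeneous 0 → u ≠ 0 → IsUnit u := by
    intro u hu hu0
    have hd : u.totalDegree = 0 := hu.totalDegree hu0
    rw [totalDegree_eq_zero_iff_eq_C] at hd
    rw [hd]
    apply IsUnit.map
    rw [isUnit_iff_ne_zero]
    intro h0
    rw [h0, map_zero] at hd
    exact hu0 hd
  have hlirr : Irreducible l := by
    constructor
    · intro hu
      have := hu.map (eval z)
      rw [hlz] at this
      exact not_isUnit_zero this
    · intro u v huv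
      obtain ⟨a', e', hae, hu, hv⟩ := hom_of_mul (huv ▸ hl1) (huv ▸ hl0)
      have hu0 : u ≠ 0 := by
        rintro rfl
        rw [zero_mul] at huv
        exact hl0 huv
      have hv0 : v ≠ 0 := by
        rintro rfl
        rw [mul_zero] at huv
        exact hl0 huv
      rcases Nat.eq_zero_or_pos a' with h' | h'
      · subst h'
        exact Or.inl (key u hu hu0)
      · have h'' : e' = 0 := by omega
        subst h''
        exact Or.inr (key v hv hv0)
  have hlf : ¬ l ∣ f := by
    rintro ⟨g, rfl⟩
    apply hz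
    rw [map_mul, hlz, zero_mul]
  refine ⟨f, l, hf, hl1, ?_⟩
  apply IsRelPrime.mul_right
  · apply IsRelPrime.pow_right
    exact ((hlirr.isRelPrime_iff_not_dvd).2 hlf).symm
  · exact ((hPi.isRelPrime_iff_not_dvd).2 hPf).symm

end Pool.Agent.Lib.MP_44a246_ntP
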