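import Mathlib
import Pool.Agent.Lib.MP_44a246_ntS.SG3
import Pool.Agent.Lib.MP_44a246_ntS.SC4
import Pool.Agent.Lib.MP_44a246_ntS.SD6
import Pool.Agent.Lib.MP_44a246_ntS.SI1
import Pool.Agent.Lib.MP_44a246_ntP.P02

/-!
The height of a space of functionals on a plane curve.
-/

namespace Pool.Agent.Lib.MP_44a246_ntP

open Pool.Agent.Lib.MP_44a246_nt
open Pool.Agent.Lib.MP_44a246_ntL
open Pool.Agent.Lib.MP_44a246_ntS
open Pool.Agent.Lib.MP_e52354_nt
open WithZero Module MvPolynomial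

variable {κ L : Type*} [Field κ] [IsAlgClosed κ] [CharZero κ] [Field L] [Algebra κ L]

omit [IsAlgClosed κ] [CharZero κ] in
theorem polyHeight_one' {σ : Type*} :
    polyHeight κ (1 : MvPolynomial σ L) = 0 := by
  rw [polyHeight_eq]
  have h1 : ∀ w : Place κ L, nrm w.1 (1 : MvPolynomial σ L) = 1 := by
    intro w
    have h2 : nrm w.1 (1 : MvPolynomial σ L) = nrm w.1 (C (1 : L) : MvPolynomial σ L) := by
      rw [C_1]
    rw [h2]
    unfold nrm
    classical
    rw [show (C (1 : L) : MvPolynomial σ L) = monomial 0 1 from rfl, support_monomial,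
      if_neg one_ne_zero, Finset.sup_singleton, coeff_monomial, if_pos rfl, map_one]
  simp [h1]

/-- **The height of a space of functionals on a plane curve**: a space `K` of functionals on the
forms of degree `d` which vanish on the multiples of the irreducible form `P` of degree `a`, and
which contains the evaluation at the point `p` of the curve, has height at least about
`(d - dim K / a) h(p)`. -/
theorem curve_ht [CharZero L] (h : IsFF κ L) {p : Fin 3 → L} (hp : p ≠ 0)
    (hpos : 0 < height κ p) {a d s j : ℕ} (ha : 1 ≤ a) (hj : 1 ≤ j) (hs : s = 3 * j * a ^ 2)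
    (hsd : 2 * s ≤ d) {P : MvPolynomial (Fin 3) L} (hP : P.IsHomogeneous a)
    (hPi : Irreducible P) (hPp : eval p P = 0) {K : Submodule L (M3 d → L)} (hK : xi d p ∈ K)
    (hKP : ∀ u ∈ K, (ctr P (d - a) d).mulVec u = 0) :
    ((j * a : ℕ) : ℤ) * (((d : ℤ) - 2 * (s : ℤ) + 1) * height κ p) ≤
      ((j * a : ℕ) : ℤ) * ht κ K + ((j : ℤ) + 1) * (height κ p * ((finrank L K : ℤ) - 1)) := by
  have has : a ≤ s := by
    have h1 : a * 1 ≤ a * (3 * j * a) := Nat.mul_le_mul_left _ (by nlinarith)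
    rw [hs]
    nlinarith
  have hjR : (1 : ℝ) ≤ j := by exact_mod_cast hj
  have haR : (1 : ℝ) ≤ a := by exact_mod_cast ha
  have hHR : (0 : ℝ) < (height κ p : ℝ) := by exact_mod_cast hpos
  set H : ℝ := (height κ p : ℝ) with hH
  set τ : ℝ := ((j : ℝ) + 1) / (j * a) * H with hτ
  set μ : ℝ := 3 * (j : ℝ) / (3 * j * a - 1) * H with hμ
  have hja : (1 : ℝ) ≤ j * a := by nlinarith
  have hden : (0 : ℝ) < 3 * j * a - 1 := by nlinarith
  have hμpos : 0 < μ := by
    rw [hμ]
    have : (0 : ℝ) < 3 * (j : ℝ) / (3 * j * a - 1) := div_pos (by linarith) hden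
    exact mul_pos this hHR
  have hτpos : 0 < τ := by
    rw [hτ]
    have : (0 : ℝ) < ((j : ℝ) + 1) / (j * a) := div_pos (by linarith) (by linarith)
    exact mul_pos this hHR
  have hμτ : μ < τ := by
    rw [hμ, hτ]
    refine mul_lt_mul_of_pos_right ?_ hHR
    rw [div_lt_div_iff₀ hden (by linarith)]
    nlinarith
  obtain ⟨W, hWK, hW, hWb⟩ := exists_hasSl h τ hK
  obtain ⟨Qd, hQd⟩ := exists_isSl (κ := κ) h μ (xi d p)
  obtain ⟨Qs, hQs⟩ := exists_isSl (κ := κ) h μ (xi s p)
  have hWQ : W ≤ Qd := hW.le_isSl h hμτ hQd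
  -- the dimension of `Qs`
  have hb := hQs.bound h (xi_ne_zero hp)
  rw [height_xi h s hp] at hb
  push_cast at hb
  have hQ0 : (0 : ℝ) ≤ (ht κ Qs : ℝ) := by exact_mod_cast ht_nonneg h Qs
  have hb1 : μ * ((finrank L Qs : ℝ) - 1) ≤ s * H := by linarith
  have hsR : (s : ℝ) = 3 * j * a ^ 2 := by
    rw [hs]
    push_cast
    ring
  have hfin : (finrank L Qs : ℝ) ≤ 1 + s * a - a ^ 2 := by
    have h1 : (3 * (j : ℝ) / (3 * j * a - 1)) * ((finrank L Qs : ℝ) - 1) ≤ s := by
      have h2 : H * ((3 * (j : ℝ) / (3 * j * a - 1)) * ((finrank L Qs : ℝ) - 1)) ≤ H * s := by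
        calc H * ((3 * (j : ℝ) / (3 * j * a - 1)) * ((finrank L Qs : ℝ) - 1)) =
              μ * ((finrank L Qs : ℝ) - 1) := by rw [hμ]; ring
          _ ≤ s * H := hb1
          _ = H * s := mul_comm _ _
      exact le_of_mul_le_mul_left h2 hHR
    rw [div_mul_eq_mul_div, div_le_iff₀ hden] at h1
    have h3 : 3 * (j : ℝ) * ((finrank L Qs : ℝ) - 1) ≤ 3 * (j : ℝ) * (s * a - a ^ 2) := by
      have h4 : (s : ℝ) * (3 * j * a - 1) = 3 * j * (s * a - a ^ 2) := by
        rw [hsR]
        ring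
      linarith
    have h5 := le_of_mul_le_mul_left h3 (by linarith : (0 : ℝ) < 3 * j)
    linarith
  have hdim : Fintype.card (M3 (s - a)) + finrank L Qs < Fintype.card (M3 s) := by
    have h1 : Fintype.card (M3 (s - a)) = N3 (s - a) := card_M3 (s - a)
    have h2 : Fintype.card (M3 s) = N3 s := card_M3 s
    rw [h1, h2]
    have h3 := two_N3 (s - a)
    have h4 := two_N3 s
    obtain ⟨b, hb'⟩ : ∃ b, s = a + b := Nat.exists_eq_add_of_le has
    have h5 : s - a = b := by omega
    rw [h5] at h3 ⊢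
    have h6 : (finrank L Qs : ℤ) ≤ 1 + s * a - a ^ 2 := by exact_mod_cast hfin
    have h7 : (2 : ℤ) * (N3 b : ℤ) = (b + 1) * (b + 2) := by exact_mod_cast h3
    have h8 : (2 : ℤ) * (N3 s : ℤ) = (s + 1) * (s + 2) := by exact_mod_cast h4
    have h9 : (s : ℤ) = a + b := by exact_mod_cast hb'
    have h10 : (1 : ℤ) ≤ a := by exact_mod_cast ha
    have h11 : (N3 b : ℤ) + finrank L Qs < N3 s := by
      rw [h9] at h6 h8
      nlinarith
    exact_mod_cast h11
  obtain ⟨f, l, hf, hl, hrel⟩ := exists_pair h has hP hPi hdim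
  have hlh : (l ^ (s - a) * P).IsHomogeneous s := by
    have h1 := (hl.pow (s - a)).mul hP
    rwa [one_mul, Nat.sub_add_cancel has] at h1
  have hcore := core_aux h hp (a := 0) (e := s) (s := s) (d := d) (by omega) hsd
    (A := 1) (isHomogeneous_one _ _) one_ne_zero (by rw [map_one]; exact one_ne_zero) hf.1 hlh
    hrel (by
      have h1 := hf.2 _ hQs.mem
      rwa [pr_xi hf.1] at h1) (by rw [map_mul, hPp, mul_zero]) (U := W) hW.mem
    (fun u hu => by
      rw [one_mul]
      exact IsSl.ctr_eq_zero h (show s + (d - s) = d by omega) hQd hQs hf.1 hf.2 (hWQ hu))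
    (fun u hu => by
      have h1 := ctr_mul (show (d - a) + a = d by omega)
        (show (d - s) + (s - a) = d - a by omega) hP (by
          have h2 := hl.pow (s - a)
          rwa [one_mul] at h2) u
      rw [one_mul, ← h1, hKP u (hWK hu), Matrix.mulVec_zero])
  rw [polyHeight_one', mul_zero, add_zero] at hcore
  have hcR : ((d : ℝ) - 2 * s + 1) * H ≤ ht κ W := by
    have h1 : (((((d : ℤ) - (0 : ℕ) - 2 * (s : ℤ) + 1) * height κ p : ℤ)) : ℝ) ≤ ((ht κ W : ℤ) : ℝ) :=
      Int.cast_le.mpr hcore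
    push_cast at h1
    rw [hH]
    linarith
  have hW1 : (1 : ℝ) ≤ finrank L W := by
    have : 1 ≤ finrank L W := by
      rw [Nat.one_le_iff_ne_zero, Ne, Submodule.finrank_eq_zero]
      intro h4
      have h1 := hW.mem
      rw [h4, Submodule.mem_bot] at h1
      exact xi_ne_zero hp h1
    exact_mod_cast this
  have hfinal : ((d : ℝ) - 2 * s + 1) * H ≤ ht κ K + τ * ((finrank L K : ℝ) - 1) := by
    have h1 : τ * 1 ≤ τ * finrank L W := mul_le_mul_of_nonneg_left hW1 hτpos.le
    linarith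
  have h1 : ((j : ℝ) * a) * (((d : ℝ) - 2 * s + 1) * H) ≤
      ((j : ℝ) * a) * ht κ K + ((j : ℝ) + 1) * (H * ((finrank L K : ℝ) - 1)) := by
    have h2 := mul_le_mul_of_nonneg_left hfinal (by linarith : (0 : ℝ) ≤ j * a)
    have h3 : ((j : ℝ) * a) * (τ * ((finrank L K : ℝ) - 1)) =
        ((j : ℝ) + 1) * (H * ((finrank L K : ℝ) - 1)) := by
      rw [hτ]
      field_simp
    rw [mul_add, h3] at h2
    exact h2
  rw [hH] at h1
  exact_mod_cast h1

end Pool.Agent.Lib.MP_44a246_ntP
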