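import Mathlib
import Pool.Agent.Lib.MP_44a246_ntS.SG3

/-!
The intersection of a space of small height with the annihilator of a curve.
-/

namespace Pool.Agent.Lib.MP_44a246_ntP

open Pool.Agent.Lib.MP_44a246_nt
open Pool.Agent.Lib.MP_44a246_ntL
open Pool.Agent.Lib.MP_44a246_ntS
open Pool.Agent.Lib.MP_e52354_nt
open WithZero Module MvPolynomial

variable {κ L : Type*} [Field κ] [IsAlgClosed κ] [CharZero κ] [Field L] [Algebra κ L]

/-- **The intersection of a space with the annihilator of a form.** -/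
theorem ht_inf_ker (h : IsFF κ L) {s d : ℕ} {P : MvPolynomial (Fin 3) L} (hP0 : P ≠ 0)
    (E : Submodule L (M3 d → L)) :
    ht κ (E ⊓ LinearMap.ker (ctr P s d).mulVecLin) ≤
      ht κ E + polyHeight κ P * (finrank L E : ℤ) := by
  have hmain := ht_map h (ctr P s d) (τ := fun w => log (nrm w.1 P)) (nrm_support h hP0)
    (fun w k m => by
      rw [exp_log (nrm_ne_zero w.1 hP0)]
      exact ctr_le_nrm w.1 P s d k m)
    (A := E ⊓ LinearMap.ker (ctr P s d).mulVecLin) (B := E) (A' := ⊥) inf_le_left (by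
      rintro _ ⟨x, hx, rfl⟩
      exact (Submodule.mem_bot L).mpr (LinearMap.mem_ker.mp hx.2)) (by
      intro b hb hb'
      exact ⟨hb, LinearMap.mem_ker.mpr ((Submodule.mem_bot L).mp hb')⟩)
  rw [ht_bot h, add_zero, bot_sup_eq, ← polyHeight_eq] at hmain
  have h1 := ht_nonneg h (E.map (ctr P s d).mulVecLin)
  have h2 : 0 ≤ polyHeight κ P := polyHeight_nonneg h hP0
  have h3 : 0 ≤ polyHeight κ P *
      (finrank L (E ⊓ LinearMap.ker (ctr P s d).mulVecLin : Submodule L (M3 d → L)) : ℤ) :=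
    mul_nonneg h2 (Int.natCast_nonneg _)
  rw [mul_sub] at hmain
  linarith

end Pool.Agent.Lib.MP_44a246_ntP
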