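import Mathlib

/-!
The numerical lemma of the sharp inequality.
-/

namespace Pool.Agent.Lib.MP_44a246_ntP

/-- **Numerical lemma.** -/
theorem numP {T q r r' a d : ℕ} (hT : 1 ≤ T) (ha : 1 ≤ a) (haT : a ≤ 2 * T)
    (hN : T * (q + 2 * r) + 3 * r + 600 * T ^ 4 ≤ T * d) (hr : r' ≤ r)
    {N c : ℕ} (hNN : N = (2 * a + 1) * (a + 1) ^ 2 + 2 * a * r' + 1) (hc : c = N + 1)
    {H α Δ G hE hK k : ℤ} (hH : 0 < H) (hα0 : 0 ≤ α) (hα : 3 * (α * (54 * T ^ 2 : ℕ)) ≤ 8 * H)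
    (hΔ : 0 ≤ Δ) (hG : G ≤ q * H)
    (h1 : hE ≤ N * (4 * α + 3 * Δ) + 3 * H + Δ + G) (h2 : hK ≤ hE + α * c) (hk : k ≤ c)
    (h3 : ((T * a : ℕ) : ℤ) * (((d : ℤ) - 2 * (3 * T * a ^ 2 : ℕ) + 1) * H) ≤
      ((T * a : ℕ) : ℤ) * hK + ((T : ℤ) + 1) * (H * (k - 1))) :
    H ≤ 27 * d ^ 2 * Δ := by
  -- By contradiction `27 d ^ 2 Δ < H`. `N = 2 a ^ 3 + 5 a ^ 2 + 4 a + 2 + 2 a r'`, `s = 3 T a ^ 2`.
  -- `3 N + 1 ≤ 27 d ^ 2`, so `(3 N + 1) Δ < H`. The hypotheses give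
  --   `T a (d - 2 s - 2 - q) H ≤ T a (5 α c + H) + (T + 1) N H`   (`N ≤ c`).
  -- (1) `N ≤ a (2 r' + 24 T ^ 2)` (`2 a ^ 2 + 5 a + 6 ≤ 24 T ^ 2`, `2 ≤ 2 a`), hence
  --     `(T + 1) N ≤ a (2 T r' + 2 r' + 48 T ^ 3)`.
  -- (2) `c ≤ 47 T ^ 3 + 4 T r'` and `81 T ^ 2 α ≤ 4 H`, hence
  --     `5 T a α c ≤ a (12 T ^ 2 + r') H` (`5 T · 4 · (47 T ^ 3 + 4 T r') ≤ 81 T ^ 2 (12 T ^ 2 + r')`).
  -- (3) `2 s = 6 T a ^ 2 ≤ 24 T ^ 3`.
  -- So `T (d - 24 T ^ 3 - 3 - q) < 2 T r' + 2 r' + 48 T ^ 3 + 12 T ^ 2 + r'` (after division by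
  -- `a H > 0`), which contradicts `hN`.
  have hTz : (1 : ℤ) ≤ T := by exact_mod_cast hT
  have haz : (1 : ℤ) ≤ a := by exact_mod_cast ha
  have haTz : (a : ℤ) ≤ 2 * T := by exact_mod_cast haT
  have hrz : (r' : ℤ) ≤ r := by exact_mod_cast hr
  have hr0 : (0 : ℤ) ≤ r' := Int.natCast_nonneg _
  have hq0 : (0 : ℤ) ≤ q := Int.natCast_nonneg _
  have hd0 : (0 : ℤ) ≤ d := Int.natCast_nonneg _
  have hNz : (T : ℤ) * (q + 2 * r) + 3 * r + 600 * T ^ 4 ≤ T * d := by exact_mod_cast hN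
  have hNN' : (N : ℤ) = (2 * a + 1) * (a + 1) ^ 2 + 2 * a * r' + 1 := by rw [hNN]; push_cast; ring
  have hcz : (c : ℤ) = N + 1 := by rw [hc]; push_cast; ring
  have hN0 : (0 : ℤ) ≤ N := Int.natCast_nonneg _
  push_cast at hα h3
  clear hN hNN hc hr haT ha hT
  generalize (T : ℤ) = T at *
  generalize (a : ℤ) = a at *
  generalize (r' : ℤ) = r' at *
  generalize (r : ℤ) = r at *
  generalize (q : ℤ) = q at *
  generalize (d : ℤ) = d at *
  generalize (N : ℤ) = N at *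
  generalize (c : ℤ) = c at *
  have hT0 : 0 < T := by linarith
  have hT2 : T ≤ T ^ 2 := by nlinarith
  have hT3 : T ^ 2 ≤ T ^ 3 := by nlinarith [mul_nonneg (sq_nonneg T) (sub_nonneg.2 hTz)]
  have hT4 : T ^ 3 ≤ T ^ 4 := by
    nlinarith [mul_nonneg (pow_pos hT0 3).le (sub_nonneg.2 hTz)]
  have ha2 : a ^ 2 ≤ 4 * T ^ 2 := by
    have h5 := mul_le_mul haTz haTz (by linarith) (by linarith)
    linarith
  have ha3 : a ^ 3 ≤ 8 * T ^ 3 := by
    have h5 := mul_le_mul ha2 haTz (by linarith) (by positivity)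
    linarith
  have har : a * r' ≤ 2 * T * r' := mul_le_mul_of_nonneg_right haTz hr0
  -- bounds of `N`
  have hNu : N ≤ 46 * T ^ 3 + 4 * T * r' := by linarith
  have hNa : N ≤ a * (2 * r' + 24 * T ^ 2) := by
    have h5 : 2 * a ^ 2 + 5 * a + 6 ≤ 24 * T ^ 2 := by linarith
    have h6 := mul_le_mul_of_nonneg_left h5 (by linarith : (0 : ℤ) ≤ a)
    rw [hNN']
    linarith
  by_contra hcon
  push Not at hcon
  -- `3 N + 1 ≤ 27 d ^ 2`
  have hd : q + 2 * r + 600 * T ^ 3 ≤ d := by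
    have h5 : T * (q + 2 * r + 600 * T ^ 3) ≤ T * d := by linarith
    exact le_of_mul_le_mul_left h5 hT0
  have h27 : 3 * N + 1 ≤ 27 * d ^ 2 := by
    have h5 : 2 * r' + 600 * T ^ 3 ≤ d := by linarith
    have h6 : (2 * r' + 600 * T ^ 3) ^ 2 ≤ d ^ 2 :=
      pow_le_pow_left₀ (by positivity) h5 2
    have h7 : T * r' ≤ T ^ 3 * r' := mul_le_mul_of_nonneg_right (hT2.trans hT3) hr0
    have h8 : 0 ≤ T ^ 3 * r' := by positivity
    have h9 : T ^ 3 ≤ (T ^ 3) ^ 2 := by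
      have h10 : 0 ≤ T ^ 3 * (T ^ 3 - 1) := mul_nonneg (by positivity) (by linarith)
      linarith
    linarith [sq_nonneg r']
  have hΔ' : (3 * N + 1) * Δ < H := by
    have h5 := mul_le_mul_of_nonneg_right h27 hΔ
    linarith
  -- `hK`
  have hNc : N * α ≤ c * α := mul_le_mul_of_nonneg_right (by linarith) hα0
  have hKb : hK ≤ 5 * (α * c) + 3 * H + q * H + (3 * N + 1) * Δ := by
    have h5 : N * (4 * α + 3 * Δ) + 3 * H + Δ + G + α * c =
      4 * (N * α) + α * c + 3 * H + G + (3 * N + 1) * Δ := by ring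
    have h6 : c * α = α * c := mul_comm _ _
    linarith
  have hTa : 0 < T * a := mul_pos hT0 (by linarith)
  have hkN : H * (k - 1) ≤ H * N := mul_le_mul_of_nonneg_left (by linarith) hH.le
  have h5 : T * a * ((d - 2 * (3 * T * a ^ 2) + 1) * H) <
      T * a * (5 * (α * c) + 4 * H + q * H) + (T + 1) * (H * N) := by
    have h6 : T * a * hK < T * a * (5 * (α * c) + 4 * H + q * H) :=
      mul_lt_mul_of_pos_left (by linarith) hTa
    have h7 : (T + 1) * (H * (k - 1)) ≤ (T + 1) * (H * N) :=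
      mul_le_mul_of_nonneg_left hkN (by linarith)
    linarith
  -- (1)
  have h6 : (T + 1) * N ≤ a * (2 * T * r' + 2 * r' + 48 * T ^ 3) := by
    have h7 := mul_le_mul_of_nonneg_left hNa (by linarith : (0 : ℤ) ≤ T + 1)
    have h8 : a * (24 * T ^ 2) ≤ a * (24 * T ^ 3) :=
      mul_le_mul_of_nonneg_left (by linarith) (by linarith)
    linarith
  -- (2)
  have h7 : 5 * T * (α * c) ≤ (12 * T ^ 2 + r') * H := by
    have h8 : c ≤ 47 * T ^ 3 + 4 * T * r' := by linarith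
    have h9 : T * (α * c) ≤ T * (α * (47 * T ^ 3 + 4 * T * r')) :=
      mul_le_mul_of_nonneg_left (mul_le_mul_of_nonneg_left h8 hα0) hT0.le
    have h10 : 81 * (T ^ 2 * α) ≤ 4 * H := by linarith
    have h11 : 81 * (T ^ 2 * α) * (47 * T ^ 2 + 4 * r') ≤ 4 * H * (47 * T ^ 2 + 4 * r') :=
      mul_le_mul_of_nonneg_right h10 (by positivity)
    have h12 : 0 ≤ T ^ 2 * H := by positivity
    have h13 : 0 ≤ r' * H := by positivity
    linarith
  -- (3)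
  have h8 : T * a * (2 * (3 * T * a ^ 2)) ≤ T * a * (24 * T ^ 3) := by
    apply mul_le_mul_of_nonneg_left _ hTa.le
    have h9 := mul_le_mul_of_nonneg_left ha2 hT0.le
    linarith
  have h9 : a * H * (T * (d - 24 * T ^ 3 - 3 - q)) <
      a * H * (12 * T ^ 2 + r' + (2 * T * r' + 2 * r' + 48 * T ^ 3)) := by
    have h10 := mul_le_mul_of_nonneg_left h7 (by linarith : (0 : ℤ) ≤ a)
    have h11 := mul_le_mul_of_nonneg_right h6 hH.le
    have h12 := mul_le_mul_of_nonneg_right h8 hH.le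
    linarith
  have h10 : T * (d - 24 * T ^ 3 - 3 - q) <
      12 * T ^ 2 + r' + (2 * T * r' + 2 * r' + 48 * T ^ 3) :=
    lt_of_mul_lt_mul_left h9 (mul_pos (by linarith) hH).le
  have h11 : T * r' ≤ T * r := mul_le_mul_of_nonneg_left hrz hT0.le
  linarith

end Pool.Agent.Lib.MP_44a246_ntP
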