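import Mathlib
import Pool.Agent.Lib.MP_44a246_ntG.G20
import Pool.Agent.Lib.MP_44a246_ntG.G23
import Pool.Agent.Lib.MP_44a246_ntP.P01
import Pool.Agent.Lib.MP_44a246_ntP.P03
import Pool.Agent.Lib.MP_44a246_ntP.P04
import Pool.Agent.Lib.MP_44a246_ntP.P05

/-!
The sharp inequality over a function field.
-/

namespace Pool.Agent.Lib.MP_44a246_ntP

open Pool.Agent.Lib.MP_44a246_nt
open Pool.Agent.Lib.MP_44a246_ntL
open Pool.Agent.Lib.MP_44a246_ntS
open Pool.Agent.Lib.MP_44a246_ntX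
open Pool.Agent.Lib.MP_44a246_ntG
open Pool.Agent.Lib.MP_e52354_nt
open WithZero Module Polynomial

variable {κ L : Type*} [Field κ] [IsAlgClosed κ] [CharZero κ] [Field L] [CharZero L]
  [Algebra κ L]

/-- **The sharp inequality**: `r` is a bound for the rank of the rows of the coordinates. -/
theorem near_sharp (h : IsFF κ L) {n r d T q : ℕ} (hT : 1 ≤ T)
    (hN : T * (q + 2 * r) + 3 * r + 600 * T ^ 4 ≤ T * d) (X : DatG κ (L := L) n d)
    (hr : finrank L X.Ux ≤ r) {ε : Place κ L → ℕ} (hε : (Function.support ε).Finite)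
    (hεv : X.v ≠ 0 → ∀ w : Place κ L, w.1 X.v = vmax w.1 X.x ^ d ∨ 1 ≤ ε w) :
    height κ X.x ≤ 27 * d ^ 2 * X.Δ ∨ q * height κ X.x ≤ X.R + ∑ᶠ w, (ε w : ℤ) := by
  have hΔ := X.Δ_nonneg
  have hR0 := X.R_nonneg
  have hE0 : 0 ≤ ∑ᶠ w, (ε w : ℤ) := finsum_nonneg fun w => Int.natCast_nonneg _
  rcases le_or_gt (height κ X.x) (27 * d ^ 2 * X.Δ) with hle | hbig
  · exact Or.inl hle
  rcases le_or_gt (q * height κ X.x) (X.R + ∑ᶠ w, (ε w : ℤ)) with hq | hq
  · exact Or.inr hq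
  left
  have hpos : 0 < height κ X.x :=
    lt_of_le_of_lt (mul_nonneg (by positivity) hΔ) hbig
  -- numerical facts
  have hT1 : T ≤ T ^ 2 := by nlinarith
  have hT2 : T ^ 2 ≤ T ^ 3 := by nlinarith [Nat.zero_le (T ^ 2)]
  have hT3 : T ^ 4 = T * T ^ 3 := by ring
  have hd3 : 600 * T ^ 3 ≤ d := by
    have h1 : T * (600 * T ^ 3) ≤ T * d := by
      calc T * (600 * T ^ 3) = 600 * T ^ 4 := by ring
        _ ≤ T * d := by omega
    exact Nat.le_of_mul_le_mul_left h1 (by omega)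
  have hd2r : 2 * r + 600 * T ^ 3 ≤ d := by
    have h1 : T * (2 * r + 600 * T ^ 3) ≤ T * d := by
      calc T * (2 * r + 600 * T ^ 3) = T * (2 * r) + 600 * T ^ 4 := by ring
        _ ≤ T * (q + 2 * r) + 3 * r + 600 * T ^ 4 := by
          have : T * (2 * r) ≤ T * (q + 2 * r) := Nat.mul_le_mul_left _ (by omega)
          omega
        _ ≤ T * d := hN
    exact Nat.le_of_mul_le_mul_left h1 (by omega)
  have hdZ : (2 : ℤ) * r + 600 * (T : ℤ) ^ 3 ≤ d := by exact_mod_cast hd2r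
  have hTZ : (1 : ℤ) ≤ T := by exact_mod_cast hT
  have hrZ : (0 : ℤ) ≤ r := Int.natCast_nonneg _
  have hT3Z : (T : ℤ) ≤ (T : ℤ) ^ 3 := by
    have : T ≤ T ^ 3 := hT1.trans hT2
    exact_mod_cast this
  -- the space of all rows
  have hv1 : finrank L ↥(Submodule.span L ({X.row X.v} : Set (M3 d → L))) ≤ 1 := by
    have h3 := finrank_span_le_card (R := L) ({X.row X.v} : Set (M3 d → L))
    simpa using h3
  have hrU : finrank L X.U ≤ r + 1 := by
    have h1 := Submodule.finrank_add_le_finrank_add_finrank X.Ux (Submodule.span L {X.row X.v})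
    have h4 : finrank L X.U = finrank L ↥(X.Ux ⊔ Submodule.span L {X.row X.v}) := rfl
    omega
  have hhtU : ht κ X.U ≤ (((r + 1 : ℕ) : ℤ) + 1) * height κ X.x + ((r + 1 : ℕ) : ℤ) * X.Δ +
      q * height κ X.x := by
    by_cases hv : X.v = 0
    · rw [X.U_of_zero hv]
      have h1 := X.ht_Ux h hr
      push_cast
      linarith
    · have h1 := X.ht_U_log h hrU hv hε (hεv hv)
      linarith
  -- step A
  have hA := stepA h X (T := T) (S := 54 * T ^ 2) (r := r + 1) (q := q) (Δ := X.Δ) hT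
    (by omega) (by omega) (by
      have e1 : 10 * (54 * T ^ 2) * T = 540 * T ^ 3 := by ring
      have e2 : T * (r + 1 + 2 + q) = T * r + 3 * T + T * q := by ring
      have e3 : T * (q + 2 * r) = T * q + 2 * (T * r) := by ring
      rw [e1, e2]
      rw [e3] at hN
      have e4 : T ^ 3 ≤ T ^ 4 := Nat.pow_le_pow_right hT (by norm_num)
      have e5 : 1 ≤ T ^ 3 := Nat.one_le_pow _ _ hT
      omega) hrU hΔ hhtU
  rcases hA with hA | ⟨a₀, P₀, ha₀, hP₀0, hP₀h, hP₀e, hP₀b⟩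
  · refine hA.trans (mul_le_mul_of_nonneg_right ?_ hΔ)
    push_cast
    nlinarith
  obtain ⟨a, P, ha1, ha, hPh, hPi, hPe, hPb⟩ := exists_irr_form (κ := κ) h hP₀h hP₀0 hP₀e
  have haT : a ≤ 2 * T := ha.trans ha₀
  have haZ : (a : ℤ) ≤ 2 * T := by exact_mod_cast haT
  have ha1Z : (1 : ℤ) ≤ a := by exact_mod_cast ha1
  have hα0 : 0 ≤ polyHeight κ P := polyHeight_nonneg h hPi.ne_zero
  have hα : 3 * (polyHeight κ P * ((54 * T ^ 2 : ℕ) : ℤ)) ≤ 8 * height κ X.x := by
    refine le_trans ?_ hP₀b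
    exact mul_le_mul_of_nonneg_left (mul_le_mul_of_nonneg_right hPb (Int.natCast_nonneg _))
      (by norm_num)
  have hα1 : 162 * ((T : ℤ) ^ 2 * polyHeight κ P) ≤ 8 * height κ X.x := by
    push_cast at hα
    linarith
  have hTα : 162 * ((T : ℤ) * polyHeight κ P) ≤ 8 * height κ X.x := by
    have h1 : (T : ℤ) * polyHeight κ P ≤ (T : ℤ) ^ 2 * polyHeight κ P :=
      mul_le_mul_of_nonneg_right (by nlinarith) hα0
    linarith
  have haα : (a : ℤ) * polyHeight κ P ≤ 2 * (T * polyHeight κ P) := by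
    have h1 := mul_le_mul_of_nonneg_right haZ hα0
    linarith
  -- the curve
  obtain ⟨A₀, c1, c2, c3, c4, c5, c6, c7, c8⟩ := exists_curve h
    (deh_ne_zero hPh hPi.ne_zero) (deh_box hPh)
    (y₁ := X.y₁) (y := X.y) (by rw [deh_eval]; exact hPe) ha1 (by
      rw [gh_deh hPh, X.height_y₁]
      have h1 : 2 * (a : ℤ) * polyHeight κ P = 2 * (a * polyHeight κ P) := by ring
      rw [h1]
      linarith)
  have hCrv : CrvG X a A₀ := ⟨c1, c3, c4, c5, c6, c8⟩
  obtain ⟨A, hCA, hgh, hmon⟩ := exists_monic h hCrv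
  have hghle : gh κ A ≤ polyHeight κ P := by
    rw [hgh, ← gh_deh hPh]
    exact c7
  have hgA0 : 0 ≤ gh κ A := gh_nonneg h hCA.irr.ne_zero
  have hd2 : (360000 : ℤ) * T ≤ (d : ℤ) ^ 2 := by nlinarith
  have hspan : 9 * (a : ℤ) * gh κ A + 3 * a * X.Δ < height κ X.x := by
    have h1 : 9 * (a : ℤ) * gh κ A ≤ 9 * (a * polyHeight κ P) := by
      have := mul_le_mul_of_nonneg_left hghle (by linarith : (0 : ℤ) ≤ a)
      linarith
    have h2 : 3 * (a : ℤ) * X.Δ ≤ 6 * T * X.Δ := by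
      have := mul_le_mul_of_nonneg_right haZ hΔ
      linarith
    have h3 : 360000 * (T * X.Δ) ≤ (d : ℤ) ^ 2 * X.Δ := by
      have := mul_le_mul_of_nonneg_right hd2 hΔ
      linarith
    have h4 : 27 * (d : ℤ) ^ 2 * X.Δ = 27 * ((d : ℤ) ^ 2 * X.Δ) := by ring
    rw [h4] at hbig
    have h5 : 0 ≤ (T : ℤ) * X.Δ := mul_nonneg (by linarith) hΔ
    linarith
  obtain ⟨J, hJc, hJ⟩ := exists_J X
  have hJr : J.card ≤ r := by
    rw [hJc]
    exact hr
  have hVJ := finrank_VJ_span h X J hCA hmon hspan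
  set N := (2 * a + 1) * (a + 1) ^ 2 + 2 * a * J.card + 1 with hNdef
  set E : Submodule L (M3 d → L) := X.VJ J a A ⊔ Submodule.span L {X.row X.v} with hEdef
  have hξ : xi d X.p ∈ E := X.xi_mem_VJ hCA hJ
  have hfinE : finrank L E ≤ N + 1 :=
    (Submodule.finrank_add_le_finrank_add_finrank (X.VJ J a A)
      (Submodule.span L {X.row X.v})).trans (Nat.add_le_add hVJ hv1)
  have hhtE : ht κ E ≤ N * (4 * polyHeight κ P + 3 * X.Δ) + 3 * height κ X.x + X.Δ +
      (X.R + ∑ᶠ w, (ε w : ℤ)) := by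
    have h0 : (N : ℤ) * (4 * gh κ A + 3 * X.Δ) ≤ N * (4 * polyHeight κ P + 3 * X.Δ) :=
      mul_le_mul_of_nonneg_left (by linarith) (Int.natCast_nonneg _)
    by_cases hv : X.v = 0
    · have h1 : E = X.VJ J a A := by
        rw [hEdef, hv, X.row_zero, Submodule.span_zero_singleton, sup_bot_eq]
      rw [h1]
      have h2 := ht_VJ_le X hCA h hVJ
      linarith
    · have h1 := ht_VJ_log X hCA h hVJ hv hε (hεv hv)
      linarith
  -- the intersection with the annihilator of the curve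
  set K : Submodule L (M3 d → L) := E ⊓ LinearMap.ker (ctr P (d - a) d).mulVecLin with hKdef
  have had : a ≤ d := by omega
  have hξK : xi d X.p ∈ K := by
    refine ⟨hξ, LinearMap.mem_ker.2 ?_⟩
    rw [Matrix.mulVecLin_apply, ctr_xi (show d - a + a = d by omega) hPh, hPe, zero_smul]
  have hKP : ∀ u ∈ K, (ctr P (d - a) d).mulVec u = 0 := by
    intro u hu
    have h1 := LinearMap.mem_ker.1 hu.2
    rwa [Matrix.mulVecLin_apply] at h1
  have hhtK : ht κ K ≤ ht κ E + polyHeight κ P * ((N + 1 : ℕ) : ℤ) := by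
    have h1 := ht_inf_ker h (s := d - a) hPi.ne_zero E
    have h2 : polyHeight κ P * (finrank L E : ℤ) ≤ polyHeight κ P * ((N + 1 : ℕ) : ℤ) :=
      mul_le_mul_of_nonneg_left (by exact_mod_cast hfinE) hα0
    linarith
  have hfinK : (finrank L K : ℤ) ≤ ((N + 1 : ℕ) : ℤ) := by
    have h1 : finrank L K ≤ finrank L E := Submodule.finrank_mono inf_le_left
    exact_mod_cast h1.trans hfinE
  have hcurve := curve_ht h X.p_ne_zero (by rw [X.height_p]; exact hpos) (a := a) (d := d)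
    (s := 3 * T * a ^ 2) (j := T) ha1 hT rfl (by
      have h1 : a ^ 2 ≤ (2 * T) ^ 2 := Nat.pow_le_pow_left haT 2
      have h2 : 2 * (3 * T * a ^ 2) ≤ 2 * (3 * T * (2 * T) ^ 2) :=
        Nat.mul_le_mul_left _ (Nat.mul_le_mul_left _ h1)
      have h3 : 2 * (3 * T * (2 * T) ^ 2) = 24 * T ^ 3 := by ring
      omega) hPh hPi hPe hξK hKP
  rw [X.height_p] at hcurve
  exact numP hT ha1 haT hN hJr hNdef rfl hpos hα0 hα hΔ hq.le hhtE hhtK hfinK hcurve

end Pool.Agent.Lib.MP_44a246_ntP
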